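import Mathlib

/-!
# A Ramanujan graph without a maximum connectivity code

Let `C_s^2` be the square of the cycle of length `s`. For `s = 16, 17, 18` it is a 4-regular Ramanujan
graph, and all its connectivity codes have at most `12 < 2^4` members; so Q1 has a negative answer
(with `d = 4`). For `s = 15` there is a connectivity code with `16` members.

* Codes: let `E_p` be the three edges `{p,p+1}`, `{p-1,p+1}`, `{p,p+2}` crossing between `p` and
  `p+1`. Two members that agree on `E_p` and on `E_q`, `p ≠ q`, have a disconnected symmetric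
  difference. Among 13 members at least 5 pairs agree on `E_p`, and `5 * 16 > 78`, the number of
  pairs.
* Eigenvalues: by the Fourier transform on the integers modulo `s`, a nonconstant eigenvector has an
  eigenvalue `4 c^2 + 2 c - 2` with `c = cos (2 π k / s)`, `k ≠ 0`, and `-1 ≤ c ≤ cos (π / 9)`.
* The code for `s = 15` consists of the empty graph and the 15 rotations of one spanning subgraph
  with 16 edges, given by a binary sequence of period 15 (a maximal length sequence).

The counterexample and its proof are in notes of helper2; formalised by helper764.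
-/

namespace Pool.Agent.Results.MP_7d4bc7_co.CycleSquares

open SimpleGraph

/-- A connectivity code for `H`: a finite family of spanning subgraphs of `H` (graphs `F ≤ H` on the
same vertex set) such that the symmetric difference of any two distinct members is connected. -/
def IsConnectivityCode {V : Type*} (H : SimpleGraph V) (C : Finset (SimpleGraph V)) : Prop :=
  (∀ F ∈ C, F ≤ H) ∧ ∀ F ∈ C, ∀ F' ∈ C, F ≠ F' → (symmDiff F F').Connected

/-- `m H` is the largest size of a connectivity code for `H`. -/
noncomputable def m {V : Type*} (H : SimpleGraph V) : ℕ :=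
  sSup {k : ℕ | ∃ C : Finset (SimpleGraph V), IsConnectivityCode H C ∧ C.card = k}

/-- The square of the cycle of length `s`: the vertices are the integers modulo `s`, and `u` is
joined to `u ± 1` and `u ± 2`. -/
def cycSq (s : ℕ) : SimpleGraph (ZMod s) :=
  SimpleGraph.fromRel fun u v => v = u + 1 ∨ v = u + 2

lemma cycSq_adj {s : ℕ} {u v : ZMod s} :
    (cycSq s).Adj u v ↔ u ≠ v ∧ ((v = u + 1 ∨ v = u + 2) ∨ (u = v + 1 ∨ u = v + 2)) := Iff.rfl

lemma symmDiff_adj {V : Type*} (F F' : SimpleGraph V) (u v : V) :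
    (symmDiff F F').Adj u v ↔ ¬ (F.Adj u v ↔ F'.Adj u v) := by
  rw [symmDiff_def, SimpleGraph.sup_adj, SimpleGraph.sdiff_adj, SimpleGraph.sdiff_adj]
  tauto

/-- A connected subgraph of the square of a cycle uses one of the edges crossing `p, p+1` or one of
the edges crossing `q, q+1`. -/
lemma cut {s : ℕ} [NeZero s] (D : SimpleGraph (ZMod s)) (hD : D ≤ cycSq s) (hc : D.Connected)
    {p q : ZMod s} (hpq : p ≠ q)
    (p1 : ¬ D.Adj p (p + 1)) (p2 : ¬ D.Adj (p - 1) (p + 1)) (p3 : ¬ D.Adj p (p + 2))
    (q1 : ¬ D.Adj q (q + 1)) (q2 : ¬ D.Adj (q - 1) (q + 1)) (q3 : ¬ D.Adj q (q + 2)) : False := by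
  classical
  set f : ZMod s → ℕ := fun x => (x - (p + 1)).val with hf
  have hfx : ∀ x, x = p + 1 + ((f x : ℕ) : ZMod s) := by
    intro x
    simp only [hf, ZMod.natCast_zmod_val]
    ring
  have hlt : ∀ x, f x < s := fun x => ZMod.val_lt _
  have key : ∀ j < s, f (p + 1 + (j : ZMod s)) = j := by
    intro j hj
    simp only [hf]
    rw [show p + 1 + (j : ZMod s) - (p + 1) = (j : ZMod s) by ring]
    exact ZMod.val_cast_of_lt hj
  set l : ℕ := (q - p).val with hl
  have hql : q = p + (l : ZMod s) := by
    rw [hl, ZMod.natCast_zmod_val]; ring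
  have hl0 : 0 < l := by
    rcases Nat.eq_zero_or_pos l with h | h
    · exfalso; apply hpq; rw [hql, h]; simp
    · exact h
  have hls : l < s := ZMod.val_lt _
  have hs : 1 < s := by omega
  have h0 : f (p + 1) = 0 := by
    have := key 0 (by omega)
    simpa using this
  have hpf : f p = s - 1 := by
    have := key (s - 1) (by omega)
    have e : ((s - 1 : ℕ) : ZMod s) = -1 := by
      rw [Nat.cast_sub (by omega)]; simp
    rw [e] at this
    simpa using this
  obtain ⟨w⟩ := hc.preconnected (p + 1) p
  obtain ⟨d, -, hd1, hd2⟩ := w.exists_boundary_dart {x | f x < l} (by simp [h0, hl0])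
    (by simp only [Set.mem_ofPred_eq, hpf]; omega)
  have had : D.Adj d.fst d.snd := d.adj
  simp only [Set.mem_ofPred_eq, not_lt] at hd1 hd2
  generalize d.fst = x at *
  generalize d.snd = y at *
  have hfy := hlt y
  have hxk := hfx x
  have hyk := hfx y
  generalize hk : f x = k at *
  rcases (cycSq_adj.1 (hD had)).2 with (h | h) | (h | h)
  · -- y = x + 1
    by_cases hkl : k + 1 < l
    · have h2 := key (k + 1) (by omega)
      rw [show p + 1 + ((k + 1 : ℕ) : ZMod s) = y by rw [h, hxk]; push_cast; ring] at h2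
      omega
    · have e : x = q := by
        rw [hxk, hql, show l = k + 1 by omega]; push_cast; ring
      rw [h, e] at had
      exact q1 had
  · -- y = x + 2
    by_cases hkl : k + 2 < l
    · have h2 := key (k + 2) (by omega)
      rw [show p + 1 + ((k + 2 : ℕ) : ZMod s) = y by rw [h, hxk]; push_cast; ring] at h2
      omega
    · by_cases hk2 : l = k + 1
      · have e : x = q := by
          rw [hxk, hql, hk2]; push_cast; ring
        rw [h, e] at had
        exact q3 had
      · have e : x = q - 1 := by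
          rw [hxk, hql, show l = k + 2 by omega]; push_cast; ring
        rw [h, e, show q - 1 + 2 = q + 1 by ring] at had
        exact q2 had
  · -- x = y + 1
    have hy : y = x - 1 := by rw [h]; ring
    by_cases hk0 : k = 0
    · rw [hk0] at hxk
      have e : x = p + 1 := by rw [hxk]; simp
      rw [hy, e, show p + 1 - 1 = p by ring] at had
      exact p1 had.symm
    · have h2 := key (k - 1) (by omega)
      rw [show p + 1 + ((k - 1 : ℕ) : ZMod s) = y by
        rw [hy, hxk, Nat.cast_sub (by omega)]; push_cast; ring] at h2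
      omega
  · -- x = y + 2
    have hy : y = x - 2 := by rw [h]; ring
    by_cases hk0 : k = 0
    · rw [hk0] at hxk
      have e : x = p + 1 := by rw [hxk]; simp
      rw [hy, e, show p + 1 - 2 = p - 1 by ring] at had
      exact p2 had.symm
    · by_cases hk1 : k = 1
      · rw [hk1] at hxk
        have e : x = p + 2 := by rw [hxk]; push_cast; ring
        rw [hy, e, show p + 2 - 2 = p by ring] at had
        exact p3 had.symm
      · have h2 := key (k - 2) (by omega)
        rw [show p + 1 + ((k - 2 : ℕ) : ZMod s) = y by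
          rw [hy, hxk, Nat.cast_sub (by omega)]; push_cast; ring] at h2
        omega

/-- Pigeonhole: 13 objects with `n ≥ 16` signatures, each with at most `8` values, such that no two
objects agree in two signatures, do not exist. -/
lemma pigeon {α ι σ : Type*} [DecidableEq α] [Fintype ι] [Fintype σ] (hσ : Fintype.card σ = 8)
    (G : Finset α) (hG : G.card = 13) (sig : ι → α → σ)
    (h : ∀ F ∈ G, ∀ F' ∈ G, F ≠ F' → ∀ p q, p ≠ q → sig p F = sig p F' → sig q F ≠ sig q F') :
    Fintype.card ι ≤ 15 := by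
  classical
  set A : ι → Finset (α × α) := fun p => G.offDiag.filter (fun x => sig p x.1 = sig p x.2) with hA
  have hcard : ∀ p, 10 ≤ (A p).card := by
    intro p
    have h1 : (A p).card = ∑ t : σ, ((A p).filter (fun x : α × α => sig p x.1 = t)).card :=
      Finset.card_eq_sum_card_fiberwise (f := fun x : α × α => sig p x.1) (t := Finset.univ)
        (fun _ _ => Finset.mem_coe.2 (Finset.mem_univ _))
    have h2 : ∀ t : σ, ((A p).filter (fun x : α × α => sig p x.1 = t)) =
        (G.filter (fun F => sig p F = t)).offDiag := by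
      intro t
      ext x
      simp only [hA, Finset.mem_filter, Finset.mem_offDiag]
      constructor
      · rintro ⟨⟨⟨a, b, c⟩, d⟩, e⟩
        exact ⟨⟨a, e⟩, ⟨b, by rw [← d]; exact e⟩, c⟩
      · rintro ⟨⟨a, e⟩, ⟨b, d⟩, c⟩
        exact ⟨⟨⟨a, b, c⟩, by rw [e, d]⟩, e⟩
    have h3 : ∑ t : σ, (G.filter (fun F => sig p F = t)).card = 13 := by
      rw [← hG]
      exact (Finset.card_eq_sum_card_fiberwise (f := fun x => sig p x) (t := Finset.univ)
        (fun _ _ => Finset.mem_coe.2 (Finset.mem_univ _))).symm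
    have h4 : ∀ t : σ, 2 * (G.filter (fun F => sig p F = t)).card ≤
        ((A p).filter (fun x : α × α => sig p x.1 = t)).card + 2 := by
      intro t
      rw [h2 t, Finset.offDiag_card]
      generalize (G.filter (fun F => sig p F = t)).card = n
      rcases n with _ | _ | n
      · simp
      · simp
      · have : (n + 1 + 1) * (n + 1 + 1) = (n + 1 + 1) + (n + 1 + 1) * (n + 1) := by ring
        rw [this, Nat.add_sub_cancel_left]
        nlinarith
    have h5 : ∑ t : σ, 2 * (G.filter (fun F => sig p F = t)).card ≤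
        ∑ t : σ, (((A p).filter (fun x : α × α => sig p x.1 = t)).card + 2) :=
      Finset.sum_le_sum fun t _ => h4 t
    rw [← Finset.mul_sum, h3, Finset.sum_add_distrib, ← h1] at h5
    simp only [Finset.sum_const, Finset.card_univ, hσ, smul_eq_mul] at h5
    omega
  have hdisj : ∀ p ∈ (Finset.univ : Finset ι), ∀ q ∈ (Finset.univ : Finset ι), p ≠ q →
      Disjoint (A p) (A q) := by
    intro p _ q _ hpq
    rw [Finset.disjoint_left]
    intro x hx hx'
    simp only [hA, Finset.mem_filter, Finset.mem_offDiag] at hx hx'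
    exact h x.1 hx.1.1 x.2 hx.1.2.1 hx.1.2.2 p q hpq hx.2 hx'.2
  have hsum : ∑ p : ι, (A p).card ≤ 156 := by
    rw [← Finset.card_biUnion hdisj]
    refine le_trans (Finset.card_le_card (t := G.offDiag) ?_) ?_
    · intro x hx
      simp only [Finset.mem_biUnion, hA, Finset.mem_filter] at hx
      exact hx.choose_spec.2.1
    · rw [Finset.offDiag_card, hG]
  have h6 : ∑ _p : ι, 10 ≤ ∑ p : ι, (A p).card := Finset.sum_le_sum fun p _ => hcard p
  simp only [Finset.sum_const, Finset.card_univ, smul_eq_mul] at h6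
  omega

/-- Connectivity codes for the square of a cycle of length at least 16 have at most 12 members. -/
theorem code_card_le (s : ℕ) (hs : 16 ≤ s) (C : Finset (SimpleGraph (ZMod s)))
    (hC : IsConnectivityCode (cycSq s) C) : C.card ≤ 12 := by
  classical
  have : NeZero s := ⟨by omega⟩
  by_contra hcon
  obtain ⟨G, hGC, hG⟩ := Finset.exists_subset_card_eq (show 13 ≤ C.card by omega)
  have hsig := pigeon (α := SimpleGraph (ZMod s)) (ι := ZMod s) (σ := Prop × Prop × Prop)
    (by simp [Fintype.card_prod]) G hG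
    (fun p F => (F.Adj p (p + 1), F.Adj (p - 1) (p + 1), F.Adj p (p + 2))) ?_
  · rw [ZMod.card] at hsig
    omega
  · intro F hF F' hF' hne p q hpq hp hq
    simp only [Prod.mk.injEq, eq_iff_iff] at hp hq
    have hle : symmDiff F F' ≤ cycSq s := by
      refine le_trans (symmDiff_le_sup) (sup_le (hC.1 F (hGC hF)) (hC.1 F' (hGC hF')))
    refine cut (symmDiff F F') hle (hC.2 F (hGC hF) F' (hGC hF') hne) hpq ?_ ?_ ?_ ?_ ?_ ?_ <;>
      rw [symmDiff_adj, not_not]
    · exact hp.1
    · exact hp.2.1
    · exact hp.2.2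
    · exact hq.1
    · exact hq.2.1
    · exact hq.2.2

theorem m_le (s : ℕ) (hs : 16 ≤ s) : m (cycSq s) ≤ 12 := by
  unfold m
  refine csSup_le ⟨0, ∅, ⟨by simp, by simp⟩, rfl⟩ ?_
  rintro k ⟨C, hC, rfl⟩
  exact code_card_le s hs C hC

/-- `m H` is attained and is an upper bound: it is the largest size of a connectivity code. -/
theorem m_spec {V : Type*} [Finite V] (H : SimpleGraph V) :
    (∃ C : Finset (SimpleGraph V), IsConnectivityCode H C ∧ C.card = m H) ∧
      ∀ C : Finset (SimpleGraph V), IsConnectivityCode H C → C.card ≤ m H := by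
  classical
  have : Fintype (SimpleGraph V) := Fintype.ofFinite _
  have hb : BddAbove {k : ℕ | ∃ C : Finset (SimpleGraph V), IsConnectivityCode H C ∧ C.card = k} :=
    ⟨Fintype.card (SimpleGraph V), by rintro k ⟨C, -, rfl⟩; exact Finset.card_le_univ C⟩
  have hne : {k : ℕ | ∃ C : Finset (SimpleGraph V), IsConnectivityCode H C ∧ C.card = k}.Nonempty :=
    ⟨0, ∅, ⟨by simp, by simp⟩, rfl⟩
  exact ⟨Nat.sSup_mem hne hb, fun C hC => le_csSup hb ⟨C, hC, rfl⟩⟩

theorem adj_isHermitian {V : Type*} [Fintype V] [DecidableEq V] (H : SimpleGraph V)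
    [DecidableRel H.Adj] : (H.adjMatrix ℝ).IsHermitian := by
  rw [Matrix.IsHermitian, Matrix.conjTranspose_eq_transpose_of_trivial]
  exact H.transpose_adjMatrix

/-- `IsRamanujan d H`: the graph `H` is `d`-regular and, its adjacency eigenvalues being listed with
multiplicity in non-increasing order, every eigenvalue except the first one and, when `H` is
bipartite, the last one, has absolute value at most `2 √(d - 1)`. -/
def IsRamanujan {V : Type*} [Fintype V] [DecidableEq V] (d : ℕ) (H : SimpleGraph V)
    [DecidableRel H.Adj] : Prop :=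
  H.IsRegularOfDegree d ∧
    ∀ i : Fin (Fintype.card V), (i : ℕ) ≠ 0 →
      ¬ (H.IsBipartite ∧ (i : ℕ) + 1 = Fintype.card V) →
        |(adj_isHermitian H).eigenvalues₀ i| ≤ 2 * Real.sqrt ((d : ℝ) - 1)

instance (s : ℕ) : DecidableRel (cycSq s).Adj := fun _ _ => decidable_of_iff' _ cycSq_adj

lemma small_ne_zero {s : ℕ} (hs : 5 ≤ s) (j : ℕ) (h0 : 0 < j) (h5 : j < 5) : (j : ZMod s) ≠ 0 := by
  rw [Ne, ZMod.natCast_eq_zero_iff]
  intro h
  have := Nat.le_of_dvd h0 h
  omega

section
variable {s : ℕ} [NeZero s]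

lemma nbr (hs : 5 ≤ s) (i : ZMod s) :
    (cycSq s).neighborFinset i = {i + 1, i - 1, i + 2, i - 2} := by
  have h1 := small_ne_zero hs 1 (by norm_num) (by norm_num)
  have h2 := small_ne_zero hs 2 (by norm_num) (by norm_num)
  push_cast at h1 h2
  ext j
  simp only [mem_neighborFinset, cycSq_adj, Finset.mem_insert, Finset.mem_singleton]
  constructor
  · rintro ⟨-, (h | h) | (h | h)⟩
    · exact Or.inl h
    · exact Or.inr (Or.inr (Or.inl h))
    · exact Or.inr (Or.inl (by rw [h]; ring))
    · exact Or.inr (Or.inr (Or.inr (by rw [h]; ring)))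
  · rintro (h | h | h | h)
    · exact ⟨fun e => h1 (by rw [h] at e; simpa using e), Or.inl (Or.inl h)⟩
    · refine ⟨fun e => h1 ?_, Or.inr (Or.inl (by rw [h]; ring))⟩
      rw [h] at e
      linear_combination e
    · exact ⟨fun e => h2 (by rw [h] at e; simpa using e), Or.inl (Or.inr h)⟩
    · refine ⟨fun e => h2 ?_, Or.inr (Or.inr (by rw [h]; ring))⟩
      rw [h] at e
      linear_combination e

lemma sum_nbr {β : Type*} [AddCommMonoid β] (hs : 5 ≤ s) (i : ZMod s) (x : ZMod s → β) :
    ∑ j ∈ (cycSq s).neighborFinset i, x j = x (i + 1) + (x (i - 1) + (x (i + 2) + x (i - 2))) := by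
  have h1 := small_ne_zero hs 1 (by norm_num) (by norm_num)
  have h2 := small_ne_zero hs 2 (by norm_num) (by norm_num)
  have h3 := small_ne_zero hs 3 (by norm_num) (by norm_num)
  have h4 := small_ne_zero hs 4 (by norm_num) (by norm_num)
  push_cast at h1 h2 h3 h4
  rw [nbr hs, Finset.sum_insert, Finset.sum_insert, Finset.sum_insert, Finset.sum_singleton]
  · simp only [Finset.mem_singleton]
    intro h
    apply h4
    linear_combination h
  · simp only [Finset.mem_singleton, Finset.mem_insert, not_or]
    refine ⟨fun h => h3 (by linear_combination -h), fun h => h1 (by linear_combination h)⟩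
  · simp only [Finset.mem_singleton, Finset.mem_insert, not_or]
    refine ⟨fun h => h2 (by linear_combination h), fun h => h1 (by linear_combination -h),
      fun h => h3 (by linear_combination h)⟩

lemma regular (hs : 5 ≤ s) : (cycSq s).IsRegularOfDegree 4 := by
  intro i
  rw [← card_neighborFinset_eq_degree, Finset.card_eq_sum_ones, sum_nbr hs]
  rfl

lemma cos_bound : Real.cos (Real.pi / 9) ≤ 0.944 := by
  have h := Real.cos_three_mul (Real.pi / 9)
  rw [show 3 * (Real.pi / 9) = Real.pi / 3 by ring, Real.cos_pi_div_three] at h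
  by_contra hcon
  push Not at hcon
  set c := Real.cos (Real.pi / 9)
  nlinarith [mul_pos (sub_pos.2 hcon) (sub_pos.2 hcon), mul_pos (mul_pos (sub_pos.2 hcon) (sub_pos.2 hcon)) (sub_pos.2 hcon)]

lemma eigen_bound (hs : 5 ≤ s) (hs' : s ≤ 18) (x : ZMod s → ℝ) (μ : ℝ)
    (hx : ∀ i, x (i + 1) + (x (i - 1) + (x (i + 2) + x (i - 2))) = μ * x i)
    (hnc : ¬ ∀ i j, x i = x j) : |μ| ≤ 3.46 := by
  set X : ZMod s → ℂ := fun i => (x i : ℂ) with hX
  have hk : ∃ k : ZMod s, k ≠ 0 ∧ ∑ j : ZMod s, (ZMod.stdAddChar (-(j * k)) : ℂ) * X j ≠ 0 := by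
    by_contra hcon
    push Not at hcon
    apply hnc
    have h0 : ∀ j, X j = (s : ℂ)⁻¹ * ZMod.dft X 0 := by
      intro j
      have h1 : X j = (ZMod.dft.symm (ZMod.dft X)) j := by rw [LinearEquiv.symm_apply_apply]
      rw [h1, ZMod.invDFT_apply, Finset.sum_eq_single 0]
      · simp
      · intro k _ hk0
        have := hcon k hk0
        rw [ZMod.dft_apply]
        simp only [smul_eq_mul] at *
        rw [this, mul_zero]
      · simp
    intro i j
    have := (h0 i).trans (h0 j).symm
    simpa [hX] using this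
  obtain ⟨k, hk0, hk⟩ := hk
  have shift : ∀ c : ZMod s, ∑ j : ZMod s, (ZMod.stdAddChar (-(j * k)) : ℂ) * X (j + c) =
      ZMod.stdAddChar (c * k) * ∑ j : ZMod s, (ZMod.stdAddChar (-(j * k)) : ℂ) * X j := by
    intro c
    rw [Finset.mul_sum, ← Equiv.sum_comp (Equiv.addRight c)
      (fun j => (ZMod.stdAddChar (c * k) : ℂ) * (ZMod.stdAddChar (-(j * k)) * X j))]
    refine Finset.sum_congr rfl fun j _ => ?_
    simp only [Equiv.coe_addRight]
    rw [← mul_assoc, ← AddChar.map_add_eq_mul]
    congr 2
    ring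
  have hsum : (μ : ℂ) * ∑ j : ZMod s, (ZMod.stdAddChar (-(j * k)) : ℂ) * X j =
      ((ZMod.stdAddChar (1 * k) : ℂ) + (ZMod.stdAddChar (-1 * k) + (ZMod.stdAddChar (2 * k) +
        ZMod.stdAddChar (-2 * k)))) * ∑ j : ZMod s, (ZMod.stdAddChar (-(j * k)) : ℂ) * X j := by
    rw [add_mul, add_mul, add_mul, ← shift, ← shift, ← shift, ← shift, Finset.mul_sum,
      ← Finset.sum_add_distrib, ← Finset.sum_add_distrib, ← Finset.sum_add_distrib]
    refine Finset.sum_congr rfl fun j _ => ?_
    have := congrArg (fun t : ℝ => (t : ℂ)) (hx j)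
    simp only [Complex.ofReal_add, Complex.ofReal_mul] at this
    simp only [hX, ← sub_eq_add_neg]
    linear_combination -(ZMod.stdAddChar (-(j * k)) : ℂ) * this
  have hmu := mul_right_cancel₀ hk hsum
  set θ : ℝ := 2 * Real.pi * k.val / s with hθ
  have hχ : (ZMod.stdAddChar k : ℂ) = Complex.exp (θ * Complex.I) := by
    have h := ZMod.stdAddChar_coe (N := s) (k.val : ℤ)
    rw [Int.cast_natCast, ZMod.natCast_zmod_val] at h
    rw [h, hθ]
    congr 1
    push_cast
    ring
  have hχ' : (ZMod.stdAddChar (-k) : ℂ) = Complex.exp (-θ * Complex.I) := by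
    rw [AddChar.map_neg_eq_inv, hχ, ← Complex.exp_neg]
    congr 1
    ring
  have h2 : (ZMod.stdAddChar (2 * k) : ℂ) = Complex.exp ((2 * θ) * Complex.I) := by
    rw [two_mul, AddChar.map_add_eq_mul, hχ, ← Complex.exp_add]
    congr 1
    ring
  have h2' : (ZMod.stdAddChar (-2 * k) : ℂ) = Complex.exp (-(2 * θ) * Complex.I) := by
    rw [show -2 * k = -k + -k by ring, AddChar.map_add_eq_mul, hχ', ← Complex.exp_add]
    congr 1
    ring
  have hreal : μ = 4 * Real.cos θ ^ 2 + 2 * Real.cos θ - 2 := by
    have e1 : Complex.exp (θ * Complex.I) + Complex.exp (-θ * Complex.I) =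
        2 * Complex.cos θ := by
      rw [Complex.cos]; ring
    have e2 : Complex.exp ((2 * θ) * Complex.I) + Complex.exp (-(2 * θ) * Complex.I) =
        2 * Complex.cos (2 * θ) := by
      rw [Complex.cos]; ring
    have e3 : (μ : ℂ) = 2 * Complex.cos θ + 2 * Complex.cos (2 * θ) := by
      rw [hmu, one_mul, neg_one_mul, hχ, hχ', h2, h2', ← e1, ← e2]
      ring
    rw [Complex.cos_two_mul] at e3
    have e4 : (μ : ℂ) = ((4 * Real.cos θ ^ 2 + 2 * Real.cos θ - 2 : ℝ) : ℂ) := by
      rw [e3]
      push_cast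
      ring
    exact_mod_cast e4
  have hkv : 0 < k.val := by
    rcases Nat.eq_zero_or_pos k.val with h | h
    · exact absurd ((ZMod.val_eq_zero k).1 h) hk0
    · exact h
  have hkl : k.val < s := ZMod.val_lt k
  have hsR : (0 : ℝ) < s := by
    have : 0 < s := by omega
    exact_mod_cast this
  have hs18 : (s : ℝ) ≤ 18 := by exact_mod_cast hs'
  have hkv1 : (1 : ℝ) ≤ k.val := by exact_mod_cast hkv
  have hkl1 : (k.val : ℝ) + 1 ≤ s := by exact_mod_cast hkl
  have hpi := Real.pi_pos
  have hcos : Real.cos θ ≤ Real.cos (Real.pi / 9) := by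
    by_cases h : 2 * k.val ≤ s
    · have h' : 2 * (k.val : ℝ) ≤ s := by exact_mod_cast h
      apply Real.cos_le_cos_of_nonneg_of_le_pi
      · positivity
      · rw [hθ, div_le_iff₀ hsR]
        nlinarith
      · rw [hθ, le_div_iff₀ hsR]
        nlinarith
    · have h' : (s : ℝ) ≤ 2 * (k.val : ℝ) := by
        have : s ≤ 2 * k.val := by omega
        exact_mod_cast this
      rw [← Real.cos_two_pi_sub]
      have e : 2 * Real.pi - θ = 2 * Real.pi * (s - k.val) / s := by
        rw [hθ]; field_simp
      rw [e]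
      apply Real.cos_le_cos_of_nonneg_of_le_pi
      · positivity
      · rw [div_le_iff₀ hsR]
        nlinarith
      · rw [le_div_iff₀ hsR]
        nlinarith
  have hc1 := le_trans hcos cos_bound
  have hc2 := Real.neg_one_le_cos θ
  rw [hreal, abs_le]
  constructor
  · nlinarith [sq_nonneg (Real.cos θ + 1 / 4)]
  · nlinarith [mul_nonneg (sub_nonneg.2 hc1) (show (0:ℝ) ≤ Real.cos θ + 1 by linarith)]

end

theorem ramanujan (s : ℕ) [NeZero s] (hs : 5 ≤ s) (hs' : s ≤ 18) : IsRamanujan 4 (cycSq s) := by
  refine ⟨regular hs, ?_⟩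
  intro i hi _
  set hA := adj_isHermitian (cycSq s)
  have hB : (3.46 : ℝ) ≤ 2 * Real.sqrt (((4 : ℕ) : ℝ) - 1) := by
    have : (1.73 : ℝ) ≤ Real.sqrt (((4 : ℕ) : ℝ) - 1) := by
      apply Real.le_sqrt_of_sq_le
      norm_num
    linarith
  set e := (Fintype.equivOfCardEq (Fintype.card_fin (Fintype.card (ZMod s))) : Fin (Fintype.card (ZMod s)) ≃ ZMod s) with he
  have hev : ∀ j, hA.eigenvalues (e j) = hA.eigenvalues₀ j := by
    intro j
    rw [Matrix.IsHermitian.eigenvalues]
    congr 1
    exact e.symm_apply_apply j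
  have hvec : ∀ j t, (hA.eigenvectorBasis (e j)) (t + 1) + ((hA.eigenvectorBasis (e j)) (t - 1) +
      ((hA.eigenvectorBasis (e j)) (t + 2) + (hA.eigenvectorBasis (e j)) (t - 2))) =
      hA.eigenvalues₀ j * (hA.eigenvectorBasis (e j)) t := by
    intro j t
    have h := congrFun (hA.mulVec_eigenvectorBasis (e j)) t
    rw [adjMatrix_mulVec_apply, sum_nbr hs, hev] at h
    simpa using h
  have hbd : ∀ j, ¬ (∀ a b, (hA.eigenvectorBasis (e j)) a = (hA.eigenvectorBasis (e j)) b) →
      |hA.eigenvalues₀ j| ≤ 3.46 := fun j hj => eigen_bound hs hs' _ _ (hvec j) hj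
  by_cases hc : ∀ a b, (hA.eigenvectorBasis (e i)) a = (hA.eigenvectorBasis (e i)) b
  · exfalso
    have hne : ∀ j, hA.eigenvectorBasis (e j) ≠ 0 := fun j =>
      hA.eigenvectorBasis.orthonormal.ne_zero (e j)
    have hi0 : hA.eigenvectorBasis (e i) 0 ≠ 0 := by
      intro h0
      apply hne i
      ext t
      rw [hc t 0, h0]
      rfl
    have h4 : hA.eigenvalues₀ i = 4 := by
      have h := hvec i 0
      rw [hc (0 + 1) 0, hc (0 - 1) 0, hc (0 + 2) 0, hc (0 - 2) 0] at h
      have : (hA.eigenvalues₀ i - 4) * (hA.eigenvectorBasis (e i)) 0 = 0 := by linarith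
      rcases mul_eq_zero.1 this with h | h
      · linarith
      · exact absurd h hi0
    have hcard : 0 < Fintype.card (ZMod s) := Fintype.card_pos
    set z : Fin (Fintype.card (ZMod s)) := ⟨0, hcard⟩ with hz
    have hzi : e z ≠ e i := by
      intro h
      apply hi
      have := e.injective h
      rw [← this]
    have hle : hA.eigenvalues₀ i ≤ hA.eigenvalues₀ z :=
      hA.eigenvalues₀_antitone (by rw [Fin.le_def]; exact Nat.zero_le _)
    have hzc : ¬ ∀ a b, (hA.eigenvectorBasis (e z)) a = (hA.eigenvectorBasis (e z)) b := by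
      intro hz'
      have horth : inner ℝ (hA.eigenvectorBasis (e z)) (hA.eigenvectorBasis (e i)) = 0 :=
        hA.eigenvectorBasis.orthonormal.2 hzi
      rw [PiLp.inner_apply] at horth
      have h1 : ∀ t, inner ℝ ((hA.eigenvectorBasis (e z)) t) ((hA.eigenvectorBasis (e i)) t) =
          (hA.eigenvectorBasis (e z)) 0 * (hA.eigenvectorBasis (e i)) 0 := by
        intro t
        rw [hz' t 0, hc t 0]
        simp [mul_comm]
      rw [Finset.sum_congr rfl fun t _ => h1 t, Finset.sum_const, Finset.card_univ, nsmul_eq_mul] at horth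
      rcases mul_eq_zero.1 horth with h | h
      · have : (Fintype.card (ZMod s) : ℝ) ≠ 0 := by exact_mod_cast hcard.ne'
        exact this h
      · rcases mul_eq_zero.1 h with h | h
        · apply hne z
          ext t
          rw [hz' t 0, h]
          rfl
        · exact hi0 h
    have := abs_le.1 (hbd z hzc)
    linarith [this.2]
  · exact le_trans (hbd i hc) hB

/-- A binary sequence of period 15 whose nonzero shifts are closed under addition. -/
def tt (i : ZMod 15) : Bool :=
  [false, false, false, true, false, false, true, true, false, true, false, true, true, true,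
    true].getD i.val false

/-- The indicator of the edges of the `j`-th member of the code. -/
def ee (j u v : ZMod 15) : Bool :=
  if v = u + 1 then tt (u + j) else if v = u + 2 then tt (u + j + 4) else
  if u = v + 1 then tt (v + j) else if u = v + 2 then tt (v + j + 4) else false

lemma ee_symm : ∀ j u v : ZMod 15, ee j u v = ee j v u := by decide +kernel
lemma ee_irrefl : ∀ j u : ZMod 15, ee j u u = false := by decide +kernel
lemma tt_add : ∀ j k : ZMod 15, j ≠ k → ∃ l, ∀ u, xor (tt (u + j)) (tt (u + k)) = tt (u + l) := by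
  decide +kernel
lemma ee_shift : ∀ j u v : ZMod 15, ee j u v = ee 0 (u + j) (v + j) := by decide +kernel

/-- The parent of a vertex in a spanning tree. -/
def par (i : ZMod 15) : ZMod 15 :=
  ([0, 14, 4, 5, 3, 7, 7, 9, 10, 11, 12, 12, 13, 14, 0] : List (ZMod 15)).getD i.val 0

/-- The depth of a vertex in the spanning tree. -/
def rk (i : ZMod 15) : ℕ :=
  [0, 2, 10, 8, 9, 7, 7, 6, 5, 5, 4, 4, 3, 2, 1].getD i.val 0

lemma par_spec : ∀ v : ZMod 15, v ≠ 0 → ee 0 v (par v) = true ∧ rk (par v) < rk v := by
  decide +kernel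

/-- The `j`-th member of the code. -/
def Fg (j : ZMod 15) : SimpleGraph (ZMod 15) := SimpleGraph.fromRel fun u v => ee j u v = true

lemma Fg_adj (j u v : ZMod 15) : (Fg j).Adj u v ↔ ee j u v = true := by
  rw [Fg, SimpleGraph.fromRel_adj, ee_symm j v u, or_self]
  constructor
  · exact fun h => h.2
  · intro h
    refine ⟨fun e => ?_, h⟩
    rw [e, ee_irrefl] at h
    exact absurd h (by simp)

lemma Fg_le (j : ZMod 15) : Fg j ≤ cycSq 15 := by
  intro u v h
  refine ⟨h.ne, ?_⟩
  rw [Fg_adj, ee] at h
  split_ifs at h with h1 h2 h3 h4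
  · exact Or.inl (Or.inl h1)
  · exact Or.inl (Or.inr h2)
  · exact Or.inr (Or.inl h3)
  · exact Or.inr (Or.inr h4)

lemma Fg_symmDiff {j k : ZMod 15} (h : j ≠ k) : ∃ l, symmDiff (Fg j) (Fg k) = Fg l := by
  obtain ⟨l, hl⟩ := tt_add j k h
  refine ⟨l, ?_⟩
  have hl' : ∀ u, xor (tt (u + j + 4)) (tt (u + k + 4)) = tt (u + l + 4) := by
    intro u
    rw [show u + j + 4 = (u + 4) + j by ring, show u + k + 4 = (u + 4) + k by ring,
      show u + l + 4 = (u + 4) + l by ring]
    exact hl (u + 4)
  ext u v
  rw [symmDiff_adj, Fg_adj, Fg_adj, Fg_adj]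
  have : ee l u v = xor (ee j u v) (ee k u v) := by
    unfold ee
    split_ifs
    · exact (hl u).symm
    · exact (hl' u).symm
    · exact (hl v).symm
    · exact (hl' v).symm
    · rfl
  rw [this]
  cases ee j u v <;> cases ee k u v <;> simp

lemma Fg_adj_par (j v : ZMod 15) (h : v + j ≠ 0) : (Fg j).Adj v (par (v + j) - j) := by
  rw [Fg_adj, ee_shift, sub_add_cancel]
  exact (par_spec _ h).1

lemma Fg_conn (j : ZMod 15) : (Fg j).Connected := by
  have key : ∀ n, ∀ v : ZMod 15, rk (v + j) = n → (Fg j).Reachable v (-j) := by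
    intro n
    induction n using Nat.strong_induction_on with
    | _ n ih =>
      intro v hv
      by_cases h : v + j = 0
      · rw [eq_neg_of_add_eq_zero_left h]
      · have h1 := Fg_adj_par j v h
        have h2 := (par_spec _ h).2
        refine h1.reachable.trans (ih (rk (par (v + j))) (by omega) _ ?_)
        rw [sub_add_cancel]
  have : Nonempty (ZMod 15) := ⟨0⟩
  exact SimpleGraph.Connected.mk fun u v => (key _ u rfl).trans (key _ v rfl).symm

lemma Fg_ne_bot (j : ZMod 15) : Fg j ≠ ⊥ := by
  intro h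
  have := Fg_adj_par j (1 - j) (by rw [sub_add_cancel]; decide)
  rw [h] at this
  exact this

lemma Fg_inj : Function.Injective Fg := by
  intro j k h
  by_contra hne
  obtain ⟨l, hl⟩ := Fg_symmDiff hne
  rw [h, symmDiff_self] at hl
  exact Fg_ne_bot l hl.symm

/-- The square of the cycle of length 15 has a connectivity code with 16 members. -/
theorem code15 : ∃ C : Finset (SimpleGraph (ZMod 15)),
    IsConnectivityCode (cycSq 15) C ∧ C.card = 16 := by
  classical
  refine ⟨insert ⊥ (Finset.univ.image Fg), ⟨?_, ?_⟩, ?_⟩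
  · intro F hF
    rw [Finset.mem_insert, Finset.mem_image] at hF
    rcases hF with rfl | ⟨j, -, rfl⟩
    · exact bot_le
    · exact Fg_le j
  · intro F hF F' hF' hne
    rw [Finset.mem_insert, Finset.mem_image] at hF hF'
    rcases hF with rfl | ⟨j, -, rfl⟩
    · rcases hF' with rfl | ⟨k, -, rfl⟩
      · exact absurd rfl hne
      · rw [bot_symmDiff]
        exact Fg_conn k
    · rcases hF' with rfl | ⟨k, -, rfl⟩
      · rw [symmDiff_bot]
        exact Fg_conn j
      · obtain ⟨l, hl⟩ := Fg_symmDiff (fun h => hne (by rw [h]) : j ≠ k)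
        rw [hl]
        exact Fg_conn l
  · rw [Finset.card_insert_of_notMem, Finset.card_image_of_injective _ Fg_inj, Finset.card_univ,
      ZMod.card]
    intro h
    obtain ⟨j, -, hj⟩ := Finset.mem_image.1 h
    exact Fg_ne_bot j hj

/-- **Q1 is false.** For all `s ≥ 16` the connectivity codes of the square of the cycle of length `s`
have at most 12 members, and for `s = 16, 17, 18` this graph is Ramanujan of degree 4. For `s = 15`
there is a code with 16 members. -/
theorem result :
    (∀ s : ℕ, 16 ≤ s → ∀ C : Finset (SimpleGraph (ZMod s)), IsConnectivityCode (cycSq s) C →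
      C.card ≤ 12) ∧
    (∀ (s : ℕ) [NeZero s], 16 ≤ s → s ≤ 18 → IsRamanujan 4 (cycSq s) ∧ m (cycSq s) ≤ 12) ∧
    (∃ C : Finset (SimpleGraph (ZMod 15)), IsConnectivityCode (cycSq 15) C ∧ C.card = 16) ∧
    ¬ (∀ d : ℕ, 4 ≤ d → ∀ (V : Type) [Fintype V] [DecidableEq V] (H : SimpleGraph V)
      [DecidableRel H.Adj], IsRamanujan d H → m H = 2 ^ d) := by
  refine ⟨code_card_le, fun s _ h1 h2 => ⟨ramanujan s (by omega) h2, m_le s h1⟩, code15, ?_⟩
  intro h
  have h1 := h 4 le_rfl (ZMod 16) (cycSq 16) (ramanujan 16 (by norm_num) (by norm_num))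
  have h2 := m_le 16 le_rfl
  rw [h1] at h2
  norm_num at h2

end Pool.Agent.Results.MP_7d4bc7_co.CycleSquares
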